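import Pool.Agent.H37.CTP.Stmts
import Pool.Agent.H46.CNJ.RKP

/-!
# Row LTX of the board ctp
-/

set_option autoImplicit false

namespace Pool.CND

theorem ltx_thm (hPRF : S_PRF) (hSFN : S_SFN) (hHC1 : S_HC1) (hHC2 : S_HC2) (hHC3 : S_HC3)
    (hHC5 : S_HC5) (hPSR : S_PSR) (hSLR : S_SLR) (hVSU : S_VSU) (hVPU : S_VPU) (hNQD : S_NQD)
    (hVZC : S_VZC) (hZZZ : S_ZZZ) (hCNG : S_CNG) : S_LTX := by
  intro p m k _ _ hchar G _ N hp hN
  have key : ∀ i, Finite (G i) ∧ HasCover k (G i) ∧ NG k (G i) = N i := by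
    intro i
    rcases hN i with ⟨F, _, f, q, n, C, _, hf, hq, hF, hC, ⟨e⟩, hn⟩ |
      ⟨F, _, f, q, σ, C, _, hf, hq, hF, hσ, hC, ⟨e⟩, hri⟩ |
      ⟨hp2, F, _, hcF, m, q, φ, hm, hq, hF, hφ, ⟨e⟩, hri⟩
    · have hfin : Finite F :=
        Nat.finite_of_card_ne_zero (by rw [hF, hq]; exact pow_ne_zero _ hp.ne_zero)
      refine ⟨Finite.of_equiv _ e.symm.toEquiv, ?_⟩
      rcases hn with ⟨hn, hri⟩ | ⟨hn, hri⟩
      · subst hn
        refine ⟨rkp_hc e (hHC1 p k F f q hp hchar hf hq hF C), ?_⟩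
        rw [hCNG k _ _ ⟨e⟩, rkp_sl hPSR hSLR hNQD hCNG p k F f q hp hchar hf hq hF C hC, hri]
      · refine ⟨rkp_hc e (hHC5 p k F f q n hp hchar hf hq hF hn C), ?_⟩
        rw [hCNG k _ _ ⟨e⟩, hSFN p k F f q n hp hchar hf hq hF hn C hC, hri]
    · have hfin : Finite (SU3 σ) := (hVZC p F f q σ hp hf hq hF hσ).1
      refine ⟨Finite.of_equiv _ e.symm.toEquiv,
        rkp_hc e (hHC2 p k F f q σ hp hchar hf hq hF hσ C), ?_⟩
      rw [hCNG k _ _ ⟨e⟩, rkp_su hVSU hVPU hNQD hVZC hCNG p k F f q σ hp hchar hf hq hF hσ C hC,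
        hri]
    · subst hp2
      have hfin : Finite F := Nat.finite_of_card_ne_zero (by rw [hF, hq]; positivity)
      have hfin' : Finite (Sz φ) := inferInstance
      refine ⟨Finite.of_equiv _ e.symm.toEquiv,
        rkp_hc e (hHC3 m q k F φ hchar hm hq hF hφ), ?_⟩
      rw [hCNG k _ _ ⟨e⟩, hZZZ m q _ k F φ hchar hm rfl hq hF hφ, hri]
  have hfin : ∀ i, Finite (G i) := fun i => (key i).1
  rw [hPRF p m k G hp fun i => (key i).2.1]
  congr 1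
  funext i
  exact (key i).2.2

end Pool.CND
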